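import Pool.Agent.Helper19.Un.Stmts

set_option autoImplicit false

/-!
# Module UZ: the gradient term of the partition of unity integrates to zero
-/

namespace Pool.Agent.Helper19.Un

open MeasureTheory Topology
open scoped ComplexConjugate

variable {m : ℕ}

theorem uz_contDiff_hgt {n : WithTop ℕ∞} : ContDiff ℝ n (hgt : Pt m → ℝ) := by
  have h1 : ContDiff ℝ n fun p : Pt m => p.1.re := Complex.reCLM.contDiff.comp contDiff_fst
  have h2 : ContDiff ℝ n fun p : Pt m => ‖p.2‖ ^ 2 := contDiff_snd.norm_sq ℝ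
  exact ((contDiff_const.mul h1).add h2).neg

theorem uz_continuous_of_SD {X : Type*} [TopologicalSpace X] [Zero X] {f : Pt m → X}
    {K : Set (Pt m)}
    (hK : IsClosed K) (hKU : K ⊆ SD m) (hf : ContinuousOn f (SD m))
    (h0 : ∀ p, p ∉ K → f p = 0) : Continuous f := by
  rw [continuous_iff_continuousAt]
  intro p
  by_cases hp : p ∈ SD m
  · exact hf.continuousAt (isOpen_SD.mem_nhds hp)
  · have hpK : p ∈ Kᶜ := fun h => hp (hKU h)
    have hev : f =ᶠ[𝓝 p] fun _ => 0 := by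
      filter_upwards [hK.isOpen_compl.mem_nhds hpK] with q hq
      exact h0 q hq
    exact continuousAt_const.congr hev.symm

theorem uz_isHaar : (volume : Measure (Pt m)).IsAddHaarMeasure :=
  Measure.prod.instIsAddHaarMeasure _ _

theorem uz_integrable_vol {X : Type*} [NormedAddCommGroup X] {f : Pt m → X} {K : Set (Pt m)}
    (hK : IsCompact K) (hf : Continuous f) (h0 : ∀ p, p ∉ K → f p = 0) :
    Integrable f (volume : Measure (Pt m)) := by
  have := uz_isHaar (m := m)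
  exact hf.integrable_of_hasCompactSupport (HasCompactSupport.intro hK h0)

theorem uz_measurable_weight :
    Measurable fun p : Pt m => ENNReal.ofReal ((hgt p ^ (m + 2))⁻¹) :=
  ((continuous_hgt.measurable.pow_const (m + 2)).inv).ennreal_ofReal

theorem uz_integrable_hyp {X : Type*} [NormedAddCommGroup X] [NormedSpace ℝ X] {f : Pt m → X}
    {K : Set (Pt m)} (hK : IsCompact K) (hKU : K ⊆ SD m) (hf : ContinuousOn f (SD m))
    (h0 : ∀ p, p ∉ K → f p = 0) : Integrable f (hyp m) := by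
  unfold hyp
  rw [integrable_withDensity_iff_integrable_smul' uz_measurable_weight
    (Filter.Eventually.of_forall fun _ => ENNReal.ofReal_lt_top)]
  have hc : Continuous fun p : Pt m => ((hgt p ^ (m + 2))⁻¹ : ℝ) • f p := by
    refine uz_continuous_of_SD hK.isClosed hKU ?_ fun p hp => by rw [h0 p hp, smul_zero]
    refine ContinuousOn.smul ?_ hf
    refine ContinuousOn.inv₀ (continuous_hgt.pow (m + 2)).continuousOn fun p hp => ?_
    have hp' : (0 : ℝ) < hgt p := hp
    positivity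
  have hi : Integrable (fun p : Pt m => ((hgt p ^ (m + 2))⁻¹ : ℝ) • f p)
      (volume.restrict (SD m)) :=
    (uz_integrable_vol hK hc fun p hp => by rw [h0 p hp, smul_zero]).restrict
  refine (integrable_congr ?_).mpr hi
  rw [Filter.EventuallyEq, ae_restrict_iff' isOpen_SD.measurableSet]
  refine Filter.Eventually.of_forall fun p hp => ?_
  have hp' : (0 : ℝ) < hgt p := hp
  rw [ENNReal.toReal_ofReal (by positivity)]

/-- the horizontal vector fields -/
noncomputable def uz_vX (k : Fin m) (p : Pt m) : Pt m := (-conj (p.2 k), ek k)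
noncomputable def uz_vY (k : Fin m) (p : Pt m) : Pt m :=
  (-(Complex.I * conj (p.2 k)), Complex.I • ek k)

theorem uz_XX_eq (k : Fin m) (f : Pt m → ℂ) (p : Pt m) : XX k f p = pd (uz_vX k p) f p := rfl
theorem uz_YY_eq (k : Fin m) (f : Pt m → ℂ) (p : Pt m) : YY k f p = pd (uz_vY k p) f p := rfl

theorem uz_coord (k : Fin m) : Continuous fun p : Pt m => p.2 k := by
  fun_prop

theorem uz_continuous_vX (k : Fin m) : Continuous (uz_vX k) :=
  ((Complex.continuous_conj.comp (uz_coord k)).neg).prodMk continuous_const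

theorem uz_continuous_vY (k : Fin m) : Continuous (uz_vY k) :=
  ((continuous_const.mul (Complex.continuous_conj.comp (uz_coord k))).neg).prodMk continuous_const

theorem uz_continuousOn_pd (e : Pt m) {f : Pt m → ℂ} (hf : ContDiffOn ℝ 1 f (SD m)) :
    ContinuousOn (pd e f) (SD m) := by
  have h := hf.continuousOn_fderiv_of_isOpen isOpen_SD le_rfl
  exact h.clm_apply continuousOn_const

theorem uz_continuousOn_XX (k : Fin m) {f : Pt m → ℂ} (hf : ContDiffOn ℝ 1 f (SD m)) :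
    ContinuousOn (XX k f) (SD m) := by
  have h := hf.continuousOn_fderiv_of_isOpen isOpen_SD le_rfl
  exact h.clm_apply (uz_continuous_vX k).continuousOn

theorem uz_continuousOn_YY (k : Fin m) {f : Pt m → ℂ} (hf : ContDiffOn ℝ 1 f (SD m)) :
    ContinuousOn (YY k f) (SD m) := by
  have h := hf.continuousOn_fderiv_of_isOpen isOpen_SD le_rfl
  exact h.clm_apply (uz_continuous_vY k).continuousOn

theorem uz_differentiableAt_of {X : Type*} [NormedAddCommGroup X] [NormedSpace ℝ X]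
    {f : Pt m → X} (hf : ContDiffOn ℝ 1 f (SD m)) {p : Pt m}
    (hp : p ∈ SD m) : DifferentiableAt ℝ f p :=
  (hf.contDiffAt (isOpen_SD.mem_nhds hp)).differentiableAt one_ne_zero

theorem uz_pd_zero_off (e : Pt m) {φ : Pt m → ℂ} {p : Pt m} (hp : p ∉ tsupport φ) :
    pd e φ p = 0 := by
  unfold pd
  have : fderiv ℝ φ p = 0 := by
    by_contra hne
    exact hp (tsupport_fderiv_subset ℝ (subset_tsupport _ hne))
  rw [this]; rfl

theorem uz_pd_mul (e : Pt m) {f h : Pt m → ℂ} {p : Pt m} (hf : DifferentiableAt ℝ f p)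
    (hh : DifferentiableAt ℝ h p) :
    pd e (fun q => f q * h q) p = f p * pd e h p + h p * pd e f p := by
  unfold pd
  have h1 : fderiv ℝ (fun q => f q * h q) p = _ := (hf.hasFDerivAt.mul hh.hasFDerivAt).fderiv
  rw [h1]
  simp [smul_eq_mul]

theorem uz_continuousOn_gdot {u v : Pt m → ℂ} (hu : ContDiffOn ℝ 1 u (SD m))
    (hv : ContDiffOn ℝ 1 v (SD m)) : ContinuousOn (gdot u v) (SD m) := by
  unfold gdot
  have hh : ContinuousOn (fun p : Pt m => (hgt p : ℂ)) (SD m) :=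
    (Complex.continuous_ofReal.comp continuous_hgt).continuousOn
  refine ((hh.pow 2).mul (((uz_continuousOn_pd _ hu).mul (uz_continuousOn_pd _ hv)).add
    ((uz_continuousOn_pd _ hu).mul (uz_continuousOn_pd _ hv)))).add (hh.mul ?_)
  refine continuousOn_finsetSum _ fun k _ => ?_
  exact ((uz_continuousOn_XX k hu).mul (uz_continuousOn_XX k hv)).add
    ((uz_continuousOn_YY k hu).mul (uz_continuousOn_YY k hv))

theorem uz_pd_congr (e : Pt m) {f h : Pt m → ℂ} {p : Pt m} (hfh : f =ᶠ[𝓝 p] h) :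
    pd e f p = pd e h p := by
  unfold pd; rw [hfh.fderiv_eq]

theorem uz_gdot_congr {f h f' h' : Pt m → ℂ} {p : Pt m} (hf : f =ᶠ[𝓝 p] f')
    (hh : h =ᶠ[𝓝 p] h') : gdot f h p = gdot f' h' p := by
  unfold gdot
  simp only [uz_XX_eq, uz_YY_eq, uz_pd_congr _ hf, uz_pd_congr _ hh]

theorem uz_gdot_zero_off {u φ : Pt m → ℂ} {p : Pt m} (hp : p ∉ tsupport φ) :
    gdot u φ p = 0 := by
  unfold gdot
  simp only [uz_XX_eq, uz_YY_eq, uz_pd_zero_off _ hp]
  simp

theorem uz_aesm_of {f : Pt m → ℂ} (hf : ContinuousOn f (SD m)) :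
    AEStronglyMeasurable f (hyp m) := by
  have h1 : AEStronglyMeasurable f (volume.restrict (SD m)) :=
    hf.aestronglyMeasurable isOpen_SD.measurableSet
  exact h1.mono_ac (withDensity_absolutelyContinuous _ _)

/-- complex version of a real function -/
noncomputable def uz_cc (η : Pt m → ℝ) (p : Pt m) : ℂ := (η p : ℂ)

theorem uz_contDiff_cc {n : WithTop ℕ∞} {η : Pt m → ℝ} (h : ContDiff ℝ n η) :
    ContDiff ℝ n (uz_cc η) :=
  Complex.ofRealCLM.contDiff.comp h

theorem uz_contDiffOn_conj {n : WithTop ℕ∞} {f : Pt m → ℂ} {s : Set (Pt m)}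
    (h : ContDiffOn ℝ n f s) :
    ContDiffOn ℝ n (fun p => (starRingEnd ℂ) (f p)) s :=
  Complex.conjCLE.contDiff.comp_contDiffOn h

theorem uz_smooth1 {M : AddSubgroup (V m)} {ι : Type} {u : ι → Pt m → ℂ} (hS : Sys M ι u)
    (i : ι) : ContDiffOn ℝ 1 (u i) (SD m) := (hS.smooth i).of_le (by norm_num)

theorem uz_continuousOn_Gop {ι : Type} [Fintype ι] {u : ι → Pt m → ℂ}
    (hu : ∀ i, ContDiffOn ℝ 1 (u i) (SD m)) {v : Pt m → ℂ} (hv : ContDiffOn ℝ 1 v (SD m)) :
    ContinuousOn (Gop u v) (SD m) := by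
  unfold Gop
  refine continuousOn_finsetSum _ fun i _ => ?_
  exact (uz_contDiffOn_conj (hu i)).continuousOn.mul (uz_continuousOn_gdot (hu i) hv)

theorem uz_Gop_congr {ι : Type} [Fintype ι] (u : ι → Pt m → ℂ) {v w : Pt m → ℂ} {p : Pt m}
    (h : v =ᶠ[𝓝 p] w) : Gop u v p = Gop u w p := by
  unfold Gop
  refine Finset.sum_congr rfl fun i _ => ?_
  rw [uz_gdot_congr (Filter.EventuallyEq.refl _ _) h]

theorem uz_Gop_off {ι : Type} [Fintype ι] (u : ι → Pt m → ℂ) {v : Pt m → ℂ} {p : Pt m}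
    (h : p ∉ tsupport v) : Gop u v p = 0 := by
  unfold Gop
  refine Finset.sum_eq_zero fun i _ => ?_
  rw [uz_gdot_zero_off h, mul_zero]

/-- invariance of the operator -/
theorem uz_Gop_act (hGD : ST_GD) {M : AddSubgroup (V m)} {ι : Type} [Fintype ι]
    {u : ι → Pt m → ℂ} (hS : Sys M ι u)
    {γ : V m ≃ₗ[ℂ] V m} (hγ : γ ∈ Gam M) {v : Pt m → ℂ} {p : Pt m} (hp : p ∈ SD m)
    (hv : DifferentiableAt ℝ v (act γ p)) :
    Gop u v (act γ p) = Gop u (fun q => v (act γ q)) p := by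
  obtain ⟨σ, hσ⟩ := hS.perm γ hγ
  unfold Gop
  rw [← Equiv.sum_comp σ (fun i => (starRingEnd ℂ) (u i p) * gdot (u i) (fun q => v (act γ q)) p)]
  refine Finset.sum_congr rfl fun i _ => ?_
  rw [← hGD m γ hγ.1 p hp _ _
    (uz_differentiableAt_of (uz_smooth1 hS i) (act_mem hγ.1 hp)) hv, hσ i p hp]
  congr 1
  refine uz_gdot_congr ?_ (Filter.EventuallyEq.refl _ _)
  filter_upwards [isOpen_SD.mem_nhds hp] with q hq
  exact hσ i q hq

/-- finiteness of the set of `γ` moving a compact set into the support of `κ` -/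
theorem uz_finite_of_compact (hLF : ST_LF) {M : AddSubgroup (V m)} (hM : IsLat M)
    {K : Set (Pt m)} (hK : IsCompact K)
    (hKU : K ⊆ SD m) (C a : ℝ) (ha : 0 < a) :
    {γ : Gam M | ∃ q ∈ K, act γ q ∈ Sieg m C a}.Finite := by
  have hloc : ∀ p : Pt m, ∃ U : Set (Pt m), p ∈ K → U ∈ 𝓝 p ∧
      {γ : Gam M | ∃ q ∈ U, act γ q ∈ Sieg m C a}.Finite := by
    intro p
    by_cases hp : p ∈ K
    · obtain ⟨U, hU, -, hfin⟩ := hLF m M hM p (hKU hp) C a ha
      exact ⟨U, fun _ => ⟨hU, hfin⟩⟩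
    · exact ⟨Set.univ, fun h => absurd h hp⟩
  choose U hU using hloc
  obtain ⟨t, ht, hcov⟩ := hK.elim_nhds_subcover U fun p hp => (hU p hp).1
  refine (Set.Finite.biUnion t.finite_toSet fun p hp => (hU p (ht p hp)).2).subset ?_
  rintro γ ⟨q, hq, h⟩
  obtain ⟨p, hp, hqp⟩ := Set.mem_iUnion₂.1 (hcov hq)
  exact Set.mem_biUnion hp ⟨q, hqp, h⟩

/-- a closed box in the Siegel domain -/
def uz_box (m : ℕ) (C a ρ : ℝ) : Set (Pt m) :=
  {p | ‖p.2‖ ≤ C ∧ |p.1.im| ≤ C ∧ a ≤ hgt p ∧ hgt p ≤ ρ}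

theorem uz_isClosed_box (C a ρ : ℝ) : IsClosed (uz_box m C a ρ) := by
  have h1 : IsClosed {p : Pt m | ‖p.2‖ ≤ C} := isClosed_le (by fun_prop) continuous_const
  have h2 : IsClosed {p : Pt m | |p.1.im| ≤ C} :=
    isClosed_le (Complex.continuous_im.comp continuous_fst).abs continuous_const
  have h3 : IsClosed {p : Pt m | a ≤ hgt p} := isClosed_le continuous_const continuous_hgt
  have h4 : IsClosed {p : Pt m | hgt p ≤ ρ} := isClosed_le continuous_hgt continuous_const
  exact h1.inter (h2.inter (h3.inter h4))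

theorem uz_isCompact_box (C a ρ : ℝ) : IsCompact (uz_box m C a ρ) := by
  refine Metric.isCompact_of_isClosed_isBounded (uz_isClosed_box C a ρ) ?_
  refine (Metric.isBounded_closedBall (x := (0 : Pt m))
    (r := |C| + (|a| + |ρ| + C ^ 2))).subset ?_
  intro p hp
  obtain ⟨h1, h2, h3, h4⟩ := hp
  rw [mem_closedBall_zero_iff, Prod.norm_def, max_le_iff]
  have hC : 0 ≤ C := (norm_nonneg _).trans h1
  have hC' : |C| = C := abs_of_nonneg hC
  have h5 : ‖p.2‖ ^ 2 ≤ C ^ 2 := pow_le_pow_left₀ (norm_nonneg _) h1 2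
  have h6 := sq_nonneg ‖p.2‖
  have h7 : |p.1.re| ≤ |a| + |ρ| + C ^ 2 := by
    unfold hgt at h3 h4
    rw [abs_le]
    have g1 := le_abs_self ρ
    have g2 := abs_nonneg a
    have g3 := neg_abs_le a
    have g4 := abs_nonneg ρ
    have g5 := sq_nonneg C
    constructor <;> linarith
  constructor
  · refine (Complex.norm_le_abs_re_add_abs_im _).trans ?_
    rw [hC']; linarith
  · have : 0 ≤ |a| + |ρ| + C ^ 2 := by positivity
    rw [hC']; linarith

theorem uz_box_subset {C a ρ : ℝ} (ha : 0 < a) : uz_box m C a ρ ⊆ SD m := fun _ hp =>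
  lt_of_lt_of_le ha hp.2.2.1

theorem uz_box_nhds {C a ρ : ℝ} (ha : 0 < a) {p : Pt m} (hp : p ∈ uz_box m C a ρ) :
    uz_box m (C + 1) (a / 2) (ρ + 1) ∈ 𝓝 p := by
  have h1 : {q : Pt m | ‖q.2‖ < C + 1} ∩ ({q : Pt m | |q.1.im| < C + 1} ∩
      ({q : Pt m | a / 2 < hgt q} ∩ {q : Pt m | hgt q < ρ + 1})) ∈ 𝓝 p := by
    refine IsOpen.mem_nhds ?_ ⟨?_, ?_, ?_, ?_⟩
    · exact (isOpen_lt (by fun_prop) continuous_const).inter
        ((isOpen_lt (Complex.continuous_im.comp continuous_fst).abs continuous_const).inter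
          ((isOpen_lt continuous_const continuous_hgt).inter
            (isOpen_lt continuous_hgt continuous_const)))
    · have := hp.1
      change ‖p.2‖ < C + 1
      linarith
    · have := hp.2.1
      change |p.1.im| < C + 1
      linarith
    · have := hp.2.2.1
      change a / 2 < hgt p
      linarith
    · have := hp.2.2.2
      change hgt p < ρ + 1
      linarith
  filter_upwards [h1] with q hq
  exact ⟨le_of_lt hq.1, le_of_lt hq.2.1, le_of_lt hq.2.2.1, le_of_lt hq.2.2.2⟩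

theorem uz_isClosed_Sieg (C a : ℝ) : IsClosed (Sieg m C a) := by
  have h1 : IsClosed {p : Pt m | ‖p.2‖ ≤ C} := isClosed_le (by fun_prop) continuous_const
  have h2 : IsClosed {p : Pt m | |p.1.im| ≤ C} :=
    isClosed_le (Complex.continuous_im.comp continuous_fst).abs continuous_const
  have h3 : IsClosed {p : Pt m | a ≤ hgt p} := isClosed_le continuous_const continuous_hgt
  exact h1.inter (h2.inter h3)

theorem uz_tsupport_kap {M : AddSubgroup (V m)} {κ : Pt m → ℝ} {C a : ℝ} (hK : Kap M κ C a)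
    {p : Pt m} (hp : p ∈ tsupport κ) : p ∈ Sieg m C a :=
  closure_minimal (fun q hq => hK.supp q hq) (uz_isClosed_Sieg C a) hp

theorem uz_tsupport_cc {κ : Pt m → ℝ} {p : Pt m} (hp : p ∈ tsupport (uz_cc κ)) :
    p ∈ tsupport κ := by
  refine closure_mono ?_ hp
  intro q hq h
  exact hq (by unfold uz_cc; rw [h]; simp)

theorem uz_Gop_kap_off {M : AddSubgroup (V m)} {κ : Pt m → ℝ} {C a : ℝ} (hK : Kap M κ C a)
    {ι : Type} [Fintype ι] (u : ι → Pt m → ℂ) {p : Pt m} (hp : p ∉ Sieg m C a) :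
    Gop u (uz_cc κ) p = 0 :=
  uz_Gop_off u fun h => hp (uz_tsupport_kap hK (uz_tsupport_cc h))

/-- the finite set of relevant group elements -/
theorem uz_exists_T (hLF : ST_LF) {M : AddSubgroup (V m)} (hM : IsLat M) {κ : Pt m → ℝ}
    {C a : ℝ} (hK : Kap M κ C a)
    (ρ : ℝ) : ∃ T : Finset (Gam M), (∀ p ∈ uz_box m (C + 1) (a / 2) (ρ + 1),
      ∑ γ ∈ T, κ (act γ p) = 1 ∧ ∑ γ ∈ T, κ (act (γ⁻¹ : Gam M) p) = 1) := by
  classical
  have ha : 0 < a / 2 := by have := hK.pos; linarith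
  have hfin := uz_finite_of_compact hLF hM (uz_isCompact_box (C + 1) (a / 2) (ρ + 1))
    (uz_box_subset ha) C a hK.pos
  set T0 := hfin.toFinset with hT0
  set T := T0 ∪ T0.image (fun γ => γ⁻¹) with hT
  have hinv : ∀ γ, γ ∈ T → γ⁻¹ ∈ T := by
    intro γ hγ
    rw [hT, Finset.mem_union, Finset.mem_image] at hγ ⊢
    rcases hγ with h | ⟨δ, hδ, rfl⟩
    · exact Or.inr ⟨γ, h, rfl⟩
    · left; rwa [inv_inv]
  have hoff : ∀ p ∈ uz_box m (C + 1) (a / 2) (ρ + 1), ∀ γ : Gam M, γ ∉ T →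
      κ (act γ p) = 0 := by
    intro p hp γ hγ
    by_contra hne
    apply hγ
    rw [hT, Finset.mem_union]
    left
    rw [hT0, Set.Finite.mem_toFinset]
    exact ⟨p, hp, hK.supp _ hne⟩
  refine ⟨T, fun p hp => ?_⟩
  have h1 : ∑ γ ∈ T, κ (act γ p) = 1 :=
    (hasSum_sum_of_ne_finset_zero (hoff p hp)).unique (hK.sum p (uz_box_subset ha hp))
  refine ⟨h1, ?_⟩
  rw [← h1]
  refine Finset.sum_nbij' (fun γ => γ⁻¹) (fun γ => γ⁻¹) ?_ ?_ ?_ ?_ ?_
  · intro γ hγ; exact hinv γ hγ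
  · intro γ hγ; exact hinv γ hγ
  · intro γ _; exact inv_inv γ
  · intro γ _; exact inv_inv γ
  · intro γ _; rfl

theorem uz_pd_const (e : Pt m) (c : ℂ) (p : Pt m) : pd e (fun _ => c) p = 0 := by
  unfold pd; simp

theorem uz_Gop_const {ι : Type} [Fintype ι] (u : ι → Pt m → ℂ) (c : ℂ) (p : Pt m) :
    Gop u (fun _ => c) p = 0 := by
  unfold Gop gdot
  simp [uz_XX_eq, uz_YY_eq, uz_pd_const]

theorem uz_gdot_sum {u : Pt m → ℂ} {α : Type*} (T : Finset α)
    {v : α → Pt m → ℂ} {p : Pt m} (hv : ∀ j ∈ T, DifferentiableAt ℝ (v j) p) :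
    gdot u (fun q => ∑ j ∈ T, v j q) p = ∑ j ∈ T, gdot u (v j) p := by
  have hpd : ∀ e, pd e (fun q => ∑ j ∈ T, v j q) p = ∑ j ∈ T, pd e (v j) p := by
    intro e
    unfold pd
    rw [fderiv_fun_sum hv]
    simp
  unfold gdot
  simp only [uz_XX_eq, uz_YY_eq, hpd]
  have e1 : ∀ (c d : ℂ) (A B : α → ℂ), ∑ j ∈ T, (c * A j + d * B j)
      = c * ∑ j ∈ T, A j + d * ∑ j ∈ T, B j := by
    intro c d A B
    rw [Finset.sum_add_distrib, Finset.mul_sum, Finset.mul_sum]
  have e2 : ∀ (c d : ℂ) (A B : α → ℂ), c * ∑ j ∈ T, A j + d * ∑ j ∈ T, B j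
      = ∑ j ∈ T, (c * A j + d * B j) := fun c d A B => (e1 c d A B).symm
  rw [e1, e2, Finset.sum_comm]
  simp only [e2]

theorem uz_Gop_sum {ι : Type} [Fintype ι] (u : ι → Pt m → ℂ) {α : Type*} (T : Finset α)
    {v : α → Pt m → ℂ} {p : Pt m} (hv : ∀ j ∈ T, DifferentiableAt ℝ (v j) p) :
    Gop u (fun q => ∑ j ∈ T, v j q) p = ∑ j ∈ T, Gop u (v j) p := by
  unfold Gop
  rw [Finset.sum_comm]
  refine Finset.sum_congr rfl fun i _ => ?_
  rw [uz_gdot_sum T hv, Finset.mul_sum]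

theorem uz_integrable_act (hMP : ST_MP) {g : V m ≃ₗ[ℂ] V m} (hg : g ∈ UG m) {F : Pt m → ℂ}
    (hF : Integrable F (hyp m)) : Integrable (fun p => F (act g p)) (hyp m) := by
  have hmp := hMP m g hg
  have hF' : Integrable F (Measure.map (act g) (hyp m)) := by rw [hmp.map_eq]; exact hF
  exact hF'.comp_measurable hmp.measurable

theorem uz_integral_act (hMP : ST_MP) {g : V m ≃ₗ[ℂ] V m} (hg : g ∈ UG m) {F : Pt m → ℂ}
    (hF : AEStronglyMeasurable F (hyp m)) :
    ∫ p, F (act g p) ∂(hyp m) = ∫ p, F p ∂(hyp m) := by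
  have hmp := hMP m g hg
  have hF' : AEStronglyMeasurable F (Measure.map (act g) (hyp m)) := by rw [hmp.map_eq]; exact hF
  calc ∫ p, F (act g p) ∂(hyp m) = ∫ p, F p ∂(Measure.map (act g) (hyp m)) :=
        (integral_map hmp.measurable.aemeasurable hF').symm
    _ = ∫ p, F p ∂(hyp m) := by rw [hmp.map_eq]

/-- the `κ`-gradient term integrates to zero against an invariant weight -/
theorem st_UZ (hCD : ST_CD) (hGD : ST_GD) (hMP : ST_MP) (hLF : ST_LF) : ST_UZ := by
  intro m M hM κ C a hK ι _ u hS w ρ hw hw0 hwi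
  change ∫ p, (w p : ℂ) * Gop u (uz_cc κ) p ∂(hyp m) = 0
  obtain ⟨T, hT⟩ := uz_exists_T hLF hM hK ρ
  have ha := hK.pos
  have hu := uz_smooth1 hS
  have hκ1 : ContDiffOn ℝ 1 (uz_cc κ) (SD m) := (uz_contDiff_cc hK.smooth).contDiffOn
  have hG : ContinuousOn (Gop u (uz_cc κ)) (SD m) := uz_continuousOn_Gop hu hκ1
  -- vanishing off the box
  have hoff : ∀ p, p ∉ uz_box m C a ρ → (w p : ℂ) * Gop u (uz_cc κ) p = 0 := by
    intro p hp
    by_contra hne
    have h1 : w p ≠ 0 := fun h => hne (by rw [h]; simp)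
    have h2 : Gop u (uz_cc κ) p ≠ 0 := fun h => hne (by rw [h]; simp)
    have h3 : p ∈ Sieg m C a := by
      by_contra h
      exact h2 (uz_Gop_kap_off hK u h)
    exact hp ⟨h3.1, h3.2.1, h3.2.2, hw0 p h1⟩
  have hbox : uz_box m C a ρ ⊆ uz_box m (C + 1) (a / 2) (ρ + 1) := fun p hp =>
    ⟨by have := hp.1; linarith, by have := hp.2.1; linarith, by have := hp.2.2.1; linarith,
      by have := hp.2.2.2; linarith⟩
  have hact : ∀ g : Gam M, ContDiffOn ℝ 1 (act g.1) (SD m) := fun g =>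
    (hCD m g.1 g.2.1).of_le (by norm_num)
  have hκg : ∀ g : Gam M, ContDiffOn ℝ 1 (fun q => uz_cc κ (act g.1 q)) (SD m) := fun g =>
    (uz_contDiff_cc hK.smooth).comp_contDiffOn (hact g)
  -- the transformed integrand
  set H : Gam M → Pt m → ℂ := fun γ q => (κ q : ℂ) * (w q : ℂ) *
    Gop u (fun q' => uz_cc κ (act (γ⁻¹ : Gam M) q')) q with hH
  have hHc : ∀ γ : Gam M, ContinuousOn (H γ) (SD m) := by
    intro γ
    refine ContinuousOn.mul ?_ (uz_continuousOn_Gop hu (hκg _))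
    exact ((Complex.continuous_ofReal.comp hK.smooth.continuous).mul
      (Complex.continuous_ofReal.comp hw)).continuousOn
  have hH0 : ∀ γ : Gam M, ∀ p, p ∉ uz_box m C a ρ → H γ p = 0 := by
    intro γ p hp
    by_contra hne
    have h1 : w p ≠ 0 := fun h => hne (by simp only [hH]; rw [h]; simp)
    have h2 : κ p ≠ 0 := fun h => hne (by simp only [hH]; rw [h]; simp)
    have h3 := hK.supp p h2
    exact hp ⟨h3.1, h3.2.1, h3.2.2, hw0 p h1⟩
  have hpt : ∀ γ : Gam M, ∀ p ∈ SD m,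
      (κ (act γ p) : ℂ) * ((w p : ℂ) * Gop u (uz_cc κ) p) = H γ (act γ p) := by
    intro γ p hp
    have hinv : Gop u (fun q' => uz_cc κ (act (γ⁻¹ : Gam M) q')) (act γ p)
        = Gop u (uz_cc κ) p := by
      have hd : DifferentiableAt ℝ
          (fun q' => uz_cc κ (act ((γ⁻¹ : Gam M) : (V m ≃ₗ[ℂ] V m)) q')) (act γ p) :=
        uz_differentiableAt_of (hκg _) (act_mem γ.2.1 hp)
      rw [uz_Gop_act hGD hS γ.2 hp hd]
      refine uz_Gop_congr u ?_
      filter_upwards [isOpen_SD.mem_nhds hp] with q hq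
      have : act ((γ⁻¹ : Gam M) : (V m ≃ₗ[ℂ] V m)) (act γ q) = q := by
        rw [Subgroup.coe_inv]
        exact act_inv_act γ.2.1 hq
      rw [this]
    simp only [hH]
    rw [hinv]
    by_cases h1 : κ (act γ p) = 0
    · rw [h1]; simp
    by_cases h2 : Gop u (uz_cc κ) p = 0
    · rw [h2]; simp
    have h3 : a ≤ hgt (act γ p) := (hK.supp _ h1).2.2
    have h4 : a ≤ hgt p := by
      by_contra h
      exact h2 (uz_Gop_kap_off hK u fun h' => h h'.2.2)
    rw [hwi γ γ.2 p hp h4 h3]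
    ring
  have hstep : ∀ p ∈ SD m, (w p : ℂ) * Gop u (uz_cc κ) p
      = ∑ γ ∈ T, H γ (act γ p) := by
    intro p hp
    by_cases hb : p ∈ uz_box m C a ρ
    · have h1 := (hT p (hbox hb)).1
      have h2 : (∑ γ ∈ T, (κ (act γ p) : ℂ)) = 1 := by exact_mod_cast h1
      calc (w p : ℂ) * Gop u (uz_cc κ) p
          = (∑ γ ∈ T, (κ (act γ p) : ℂ)) * ((w p : ℂ) * Gop u (uz_cc κ) p) := by
            rw [h2, one_mul]
        _ = ∑ γ ∈ T, H γ (act γ p) := by
            rw [Finset.sum_mul]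
            exact Finset.sum_congr rfl fun γ _ => hpt γ p hp
    · rw [hoff p hb]
      symm
      refine Finset.sum_eq_zero fun γ _ => ?_
      rw [← hpt γ p hp, hoff p hb, mul_zero]
  have hHi : ∀ γ : Gam M, Integrable (H γ) (hyp m) := fun γ =>
    uz_integrable_hyp (uz_isCompact_box C a ρ) (uz_box_subset ha) (hHc γ) (hH0 γ)
  have hHa : ∀ γ : Gam M, Integrable (fun p => H γ (act γ p)) (hyp m) := fun γ =>
    uz_integrable_act hMP γ.2.1 (hHi γ)
  calc ∫ p, (w p : ℂ) * Gop u (uz_cc κ) p ∂(hyp m)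
      = ∫ p, ∑ γ ∈ T, H γ (act γ p) ∂(hyp m) := by
        refine integral_congr_ae ?_
        filter_upwards [ae_hyp_mem] with p hp
        exact hstep p hp
    _ = ∑ γ ∈ T, ∫ p, H γ (act γ p) ∂(hyp m) := integral_finsetSum _ fun γ _ => hHa γ
    _ = ∑ γ ∈ T, ∫ p, H γ p ∂(hyp m) :=
        Finset.sum_congr rfl fun γ _ => uz_integral_act hMP γ.2.1 (uz_aesm_of (hHc γ))
    _ = ∫ p, ∑ γ ∈ T, H γ p ∂(hyp m) := (integral_finsetSum _ fun γ _ => hHi γ).symm
    _ = 0 := by
        rw [← integral_zero (Pt m) ℂ]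
        refine integral_congr_ae ?_
        filter_upwards [ae_hyp_mem] with q hq
        by_cases hb : q ∈ uz_box m C a ρ
        · simp only [hH]
          rw [← Finset.mul_sum]
          have h1 : ∑ γ ∈ T, Gop u (fun q' => uz_cc κ (act (γ⁻¹ : Gam M) q')) q = 0 := by
            rw [← uz_Gop_sum u T fun γ _ => uz_differentiableAt_of (hκg _) hq,
              ← uz_Gop_const u 1 q]
            refine uz_Gop_congr u ?_
            filter_upwards [uz_box_nhds ha hb] with q' hq'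
            have := (hT q' hq').2
            unfold uz_cc
            exact_mod_cast this
          rw [h1, mul_zero]
        · exact Finset.sum_eq_zero fun γ _ => hH0 γ q hb

end Pool.Agent.Helper19.Un
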